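import Pool.Agent.Y396.SG.Main

/-!
# MP_9009ba_co: groups with large prime divisors or large rank have small graphs, explicit bounds

`v(G)` is the least number of vertices of a finite graph whose automorphism group is isomorphic to
`G`.
-/

set_option autoImplicit false

namespace Pool.Agent.Results.MP_9009ba_co.SubgroupRankAndLargePrimes

/-- For all finite groups `G`:

1. (answer to Q1 and Q2, and more) for every `ε > 0` there is `N` such that `v(G) < ε |G|` whenever
   `|G|` has at least `N` prime divisors, or `G`, or only some subgroup of `G`, cannot be generated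
   by fewer than `N` elements;
2. if `|G|` has at least `22` prime divisors greater than `K ≥ 128`, then `v(G) ≤ 11 |G| / K`;
3. if `|G|` has `k ≥ 53` prime divisors, then `v(G) ≤ 11 |G| / (q - 1)`, where `q` is the
   `(k - 21)`-th prime number;
4. if `|G|` has `k ≥ 151` prime divisors, then `v(G) ≤ 13 |G| / k`;
5. if `G` contains an elementary abelian `p`-group of order `p ^ s`, `s ≥ 14 K + 226`, then
   `v(G) ≤ |G| / p ^ K`;
6. if some subgroup of `G` cannot be generated by fewer than `4 (14 log₂ M + 240) ^ 2 M` elements,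
   `M ≥ 151`, then `v(G) ≤ 13 |G| / M`. -/
theorem result :
    (∀ ε : ℝ, 0 < ε → ∃ N : ℕ, ∀ (G : Type) [Group G] [Finite G],
      (N ≤ (Nat.card G).primeFactors.card ∨ N ≤ Group.rank G ∨
        ∃ H : Subgroup G, N ≤ Group.rank H) →
      ∃ (V : Type) (_ : Finite V) (X : SimpleGraph V), Nonempty ((X ≃g X) ≃* G) ∧
        (Nat.card V : ℝ) < ε * Nat.card G) ∧
    (∀ (K : ℕ), 128 ≤ K → ∀ (G : Type) [Group G] [Finite G],
      22 ≤ ((Nat.card G).primeFactors.filter fun p => K < p).card →
      ∃ (V : Type) (_ : Finite V) (X : SimpleGraph V), Nonempty ((X ≃g X) ≃* G) ∧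
        Nat.card V * K ≤ 11 * Nat.card G) ∧
    (∀ (G : Type) [Group G] [Finite G], 53 ≤ (Nat.card G).primeFactors.card →
      ∃ (V : Type) (_ : Finite V) (X : SimpleGraph V), Nonempty ((X ≃g X) ≃* G) ∧
        Nat.card V * (Nat.nth Nat.Prime ((Nat.card G).primeFactors.card - 22) - 1) ≤
          11 * Nat.card G) ∧
    (∀ (G : Type) [Group G] [Finite G], 151 ≤ (Nat.card G).primeFactors.card →
      ∃ (V : Type) (_ : Finite V) (X : SimpleGraph V), Nonempty ((X ≃g X) ≃* G) ∧
        Nat.card V * (Nat.card G).primeFactors.card ≤ 13 * Nat.card G) ∧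
    (∀ (G : Type) [Group G] [Finite G] (p : ℕ) (E : Subgroup G) (K s : ℕ), p.Prime →
      (∀ a ∈ E, ∀ b ∈ E, a * b = b * a) → (∀ a ∈ E, a ^ p = 1) → Nat.card E = p ^ s →
      14 * K + 226 ≤ s →
      ∃ (V : Type) (_ : Finite V) (X : SimpleGraph V), Nonempty ((X ≃g X) ≃* G) ∧
        Nat.card V * p ^ K ≤ Nat.card G) ∧
    (∀ (M : ℕ), 151 ≤ M → ∀ (G : Type) [Group G] [Finite G] (H : Subgroup G),
      4 * (14 * Nat.log 2 M + 240) ^ 2 * M ≤ Group.rank H →
      ∃ (V : Type) (_ : Finite V) (X : SimpleGraph V), Nonempty ((X ≃g X) ≃* G) ∧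
        Nat.card V * M ≤ 13 * Nat.card G) := by
  refine ⟨fun ε hε => Pool.Agent.Y396.SG.part5 ε hε,
    fun K hK G _ _ h => Pool.Agent.Y396.SG.part1 K hK G h,
    fun G _ _ h => Pool.Agent.Y396.SG.part2' G h,
    fun G _ _ h => Pool.Agent.Y396.SG.part2 G h, ?_,
    fun M hM G _ _ H h => Pool.Agent.Y396.SG.part4 M hM G H h⟩
  intro G _ _ p E K s hp hc he hcard hs
  have : Fact p.Prime := ⟨hp⟩
  exact Pool.Agent.Y396.SG.part3 G p E hc he K s hcard hs

end Pool.Agent.Results.MP_9009ba_co.SubgroupRankAndLargePrimes
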